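import Mathlib
import Pool.Agent.H774R4.Fin
import Pool.Agent.Helper292.ForceCH

set_option autoImplicit false

/-!
# It is consistent with ZFC that the square of a perfectly normal `C_p(X)` is not perfectly normal

Part (A) forces the continuum hypothesis without collapsing `ω₁`; part (B) is the construction, under
the continuum hypothesis, of a Tychonoff space `X` such that `C_p(X)` is perfectly normal and
`C_p(X) × C_p(X)` is not.
-/

open Cardinal

namespace Pool.Agent.Results.MP_181197_gt.ConsistentlyNot

open Pool.Agent.Helper292.ForceCH (OmegaOnePreserved CHHolds)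

/-- `Z` is perfectly normal: it is normal and all its closed subsets are `G_δ`. -/
def PerfNormal (Z : Type) [TopologicalSpace Z] : Prop :=
  NormalSpace Z ∧ ∀ s : Set Z, IsClosed s → IsGδ s

/-- The statement of the problem: if `C_p(X)` is perfectly normal, then so is its square. -/
def Statement : Prop :=
  ∀ (X : Type) [TopologicalSpace X] [T35Space X],
    PerfNormal {f : X → ℝ // Continuous f} →
    PerfNormal ({f : X → ℝ // Continuous f} × {f : X → ℝ // Continuous f})

/-- (A) There is a notion of forcing all of whose conditions force that `ω₁` is preserved and that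
the continuum hypothesis holds. (B) The continuum hypothesis implies that the statement of the
problem is false: there is a Tychonoff space `X` such that `C_p(X)` is perfectly normal but
`C_p(X) × C_p(X)` is not. -/
theorem result :
    (∃ (P : Type) (_ : Preorder P), Nonempty P ∧
      ∀ p : P, p ∈ OmegaOnePreserved P ∧ p ∈ CHHolds P) ∧
    ((𝔠 : Cardinal.{0}) = ℵ₁ → ¬ Statement) := by
  refine ⟨?_, fun hCH hS => ?_⟩
  · obtain ⟨P, hP, hne, h⟩ := Pool.Agent.Helper292.ForceCH.exists_forcing
    exact ⟨P, hP, hne, fun p => ⟨(h p).1, (h p).2.2⟩⟩
  · obtain ⟨X, t, h1, h2, h3, h4⟩ := Pool.Agent.H774R4.main hCH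
    exact h3 (hS X h2.2)

end Pool.Agent.Results.MP_181197_gt.ConsistentlyNot
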